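import Pool.Agent.helper48.PR.SpecL

set_option autoImplicit false

namespace Pool.Agent.PR

open Matrix

theorem LLQ_den {n : ℕ} {Λ : Type} [Group Λ] (r : Λ →* Matrix (Fin n) (Fin n) ℚ)
    (htr : ∀ l, ∃ t : ℤ, (r l).trace = (t : ℚ)) (A : Matrix (Fin n) (Fin n) ℚ)
    (hA : A ∈ Submodule.span ℚ (Set.range r)) :
    ∃ N : ℕ, N ≠ 0 ∧ ∀ l, ∃ t : ℤ, (N : ℚ) * (A * r l).trace = (t : ℚ) := by
  induction hA using Submodule.span_induction with
  | mem A h =>
    obtain ⟨l', rfl⟩ := h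
    refine ⟨1, one_ne_zero, fun l => ?_⟩
    obtain ⟨t, ht⟩ := htr (l' * l)
    refine ⟨t, ?_⟩
    rw [← map_mul, ht]
    simp
  | zero => exact ⟨1, one_ne_zero, fun l => ⟨0, by simp⟩⟩
  | add A B _ _ ihA ihB =>
    obtain ⟨N1, h1, hN1⟩ := ihA
    obtain ⟨N2, h2, hN2⟩ := ihB
    refine ⟨N1 * N2, mul_ne_zero h1 h2, fun l => ?_⟩
    obtain ⟨t1, ht1⟩ := hN1 l
    obtain ⟨t2, ht2⟩ := hN2 l
    refine ⟨N2 * t1 + N1 * t2, ?_⟩
    rw [add_mul, trace_add]
    push_cast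
    rw [← ht1, ← ht2]
    ring
  | smul c A _ ih =>
    obtain ⟨N1, h1, hN1⟩ := ih
    refine ⟨N1 * c.den, mul_ne_zero h1 c.den_nz, fun l => ?_⟩
    obtain ⟨t1, ht1⟩ := hN1 l
    refine ⟨c.num * t1, ?_⟩
    rw [Matrix.smul_mul, trace_smul]
    push_cast
    rw [← ht1, smul_eq_mul]
    have h3 : (c.num : ℚ) = c * c.den := (Rat.mul_den_eq_num c).symm
    rw [h3]
    ring

theorem LLQ_entry {n : ℕ} (B : Matrix (Fin n) (Fin n) ℚ) (i j : Fin n) :
    (Matrix.single j i (1 : ℚ) * B).trace = B i j := by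
  rw [Matrix.trace]
  rw [Finset.sum_eq_single j]
  · simp [Matrix.diag_apply]
  · intro k _ hk
    simp [Matrix.diag_apply, hk]
  · intro h
    exact absurd (Finset.mem_univ _) h

theorem LLQ_common {n : ℕ} {Λ : Type} [Group Λ] (r : Λ →* Matrix (Fin n) (Fin n) ℚ)
    (hsp : Submodule.span ℚ (Set.range r) = ⊤) (htr : ∀ l, ∃ t : ℤ, (r l).trace = (t : ℚ)) :
    ∃ M : ℕ, M ≠ 0 ∧ ∀ l i j, ∃ t : ℤ, (M : ℚ) * r l i j = (t : ℚ) := by
  have h1 : ∀ i j : Fin n, ∃ N : ℕ, N ≠ 0 ∧ ∀ l, ∃ t : ℤ, (N : ℚ) * r l i j = (t : ℚ) := by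
    intro i j
    obtain ⟨N, hN, h⟩ := LLQ_den r htr (Matrix.single j i 1) (by rw [hsp]; trivial)
    refine ⟨N, hN, fun l => ?_⟩
    obtain ⟨t, ht⟩ := h l
    rw [LLQ_entry] at ht
    exact ⟨t, ht⟩
  choose N hN h using h1
  refine ⟨∏ i, ∏ j, N i j, Finset.prod_ne_zero_iff.mpr fun i _ =>
    Finset.prod_ne_zero_iff.mpr fun j _ => hN i j, ?_⟩
  intro l i j
  obtain ⟨t, ht⟩ := h i j l
  have hd : N i j ∣ ∏ i, ∏ j, N i j :=
    (Finset.dvd_prod_of_mem (fun j => N i j) (Finset.mem_univ j)).trans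
      (Finset.dvd_prod_of_mem (fun i => ∏ j, N i j) (Finset.mem_univ i))
  obtain ⟨c, hc⟩ := hd
  refine ⟨c * t, ?_⟩
  rw [hc]
  push_cast
  rw [← ht]
  ring

/-- The lattice. -/
def LLQ_L {n : ℕ} {Λ : Type} [Group Λ] (r : Λ →* Matrix (Fin n) (Fin n) ℚ) :
    Submodule ℤ (Fin n → ℚ) :=
  Submodule.span ℤ (Set.range fun p : Λ × Fin n => r p.1 *ᵥ Pi.single p.2 1)

theorem LLQ_stable {n : ℕ} {Λ : Type} [Group Λ] (r : Λ →* Matrix (Fin n) (Fin n) ℚ) (l : Λ)
    (v : Fin n → ℚ) (hv : v ∈ LLQ_L r) : r l *ᵥ v ∈ LLQ_L r := by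
  unfold LLQ_L at hv
  induction hv using Submodule.span_induction with
  | mem v h =>
    obtain ⟨⟨l', j⟩, rfl⟩ := h
    apply Submodule.subset_span
    refine ⟨(l * l', j), ?_⟩
    show r (l * l') *ᵥ Pi.single j 1 = r l *ᵥ (r l' *ᵥ Pi.single j 1)
    rw [map_mul, Matrix.mulVec_mulVec]
  | zero => rw [Matrix.mulVec_zero]; exact Submodule.zero_mem _
  | add u v _ _ hu hv => rw [Matrix.mulVec_add]; exact Submodule.add_mem _ hu hv
  | smul c u _ hu =>
    have : r l *ᵥ (c • u) = c • (r l *ᵥ u) := by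
      rw [← Int.cast_smul_eq_zsmul ℚ c u, Matrix.mulVec_smul, Int.cast_smul_eq_zsmul]
    rw [this]
    exact Submodule.smul_mem _ _ hu

theorem LLQ_single {n : ℕ} {Λ : Type} [Group Λ] (r : Λ →* Matrix (Fin n) (Fin n) ℚ) (j : Fin n) :
    (Pi.single j 1 : Fin n → ℚ) ∈ LLQ_L r := by
  apply Submodule.subset_span
  refine ⟨(1, j), ?_⟩
  show r 1 *ᵥ Pi.single j 1 = Pi.single j 1
  rw [map_one, Matrix.one_mulVec]

theorem LLQ_fin {n : ℕ} {Λ : Type} [Group Λ] (r : Λ →* Matrix (Fin n) (Fin n) ℚ)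
    (hsp : Submodule.span ℚ (Set.range r) = ⊤) (htr : ∀ l, ∃ t : ℤ, (r l).trace = (t : ℚ)) :
    Module.Finite ℤ (LLQ_L r) := by
  obtain ⟨M, hM, h⟩ := LLQ_common r hsp htr
  have hMq : (M : ℚ) ≠ 0 := by exact_mod_cast hM
  set L' : Submodule ℤ (Fin n → ℚ) :=
    Submodule.span ℤ (Set.range fun i : Fin n => (Pi.single i (1 / (M : ℚ)) : Fin n → ℚ)) with hL'
  have hfg : L'.FG := Submodule.fg_span (Set.finite_range _)
  have : IsNoetherian ℤ L' := isNoetherian_of_fg_of_noetherian L' hfg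
  have hle : LLQ_L r ≤ L' := by
    unfold LLQ_L
    rw [Submodule.span_le]
    rintro _ ⟨⟨l, j⟩, rfl⟩
    show r l *ᵥ Pi.single j 1 ∈ L'
    have h1 : r l *ᵥ Pi.single j 1 = ∑ i, (Pi.single i (r l i j) : Fin n → ℚ) := by
      rw [Finset.univ_sum_single]
      ext i
      simp
    rw [h1]
    refine Submodule.sum_mem _ fun i _ => ?_
    obtain ⟨t, ht⟩ := h l i j
    have h2 : (Pi.single i (r l i j) : Fin n → ℚ) = t • (Pi.single i (1 / (M : ℚ)) : Fin n → ℚ) := by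
      rw [← Pi.single_smul]
      congr 1
      rw [← Int.cast_smul_eq_zsmul ℚ, smul_eq_mul, ← ht]
      field_simp
    rw [h2]
    exact Submodule.smul_mem _ _ (Submodule.subset_span ⟨i, rfl⟩)
  have : IsNoetherian ℤ (LLQ_L r) := isNoetherian_of_le hle
  infer_instance

/-- The action on the lattice. -/
def LLQ_rho {n : ℕ} {Λ : Type} [Group Λ] (r : Λ →* Matrix (Fin n) (Fin n) ℚ) :
    Λ →* Module.End ℤ (LLQ_L r) where
  toFun l :=
    { toFun := fun v => ⟨r l *ᵥ v.1, LLQ_stable r l v.1 v.2⟩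
      map_add' := fun u v => by
        apply Subtype.ext
        show r l *ᵥ (u.1 + v.1) = r l *ᵥ u.1 + r l *ᵥ v.1
        rw [Matrix.mulVec_add]
      map_smul' := fun c u => by
        apply Subtype.ext
        show r l *ᵥ (c • u.1) = c • (r l *ᵥ u.1)
        rw [← Int.cast_smul_eq_zsmul ℚ c u.1, Matrix.mulVec_smul, Int.cast_smul_eq_zsmul] }
  map_one' := by
    ext v
    show (r 1 *ᵥ v.1) _ = v.1 _
    rw [map_one, Matrix.one_mulVec]
  map_mul' l l' := by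
    ext v
    show (r (l * l') *ᵥ v.1) _ = (r l *ᵥ (r l' *ᵥ v.1)) _
    rw [map_mul, Matrix.mulVec_mulVec]

theorem LLQ : LLQ_stmt := by
  intro n Λ _ r hsp htr
  have := LLQ_fin r hsp htr
  have : Module.Free ℤ (LLQ_L r) := Module.free_of_finite_type_torsion_free'
  let b0 := Module.finBasis ℤ (LLQ_L r)
  have hli : LinearIndependent ℚ (fun i => (b0 i : Fin n → ℚ)) := by
    rw [← LinearIndependent.iff_fractionRing ℤ ℚ]
    exact b0.linearIndependent.map' (LLQ_L r).subtype (Submodule.ker_subtype _)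
  have hspan : ⊤ ≤ Submodule.span ℚ (Set.range fun i => (b0 i : Fin n → ℚ)) := by
    have h1 : ∀ v ∈ LLQ_L r, v ∈ Submodule.span ℚ (Set.range fun i => (b0 i : Fin n → ℚ)) := by
      intro v hv
      have h2 := b0.sum_repr ⟨v, hv⟩
      have h3 := congrArg Subtype.val h2
      rw [Submodule.coe_sum] at h3
      rw [← show _ = v from h3]
      refine Submodule.sum_mem _ fun i _ => ?_
      rw [Submodule.coe_smul, ← Int.cast_smul_eq_zsmul ℚ]
      exact Submodule.smul_mem _ _ (Submodule.subset_span ⟨i, rfl⟩)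
    intro v _
    have h4 : v = ∑ i, v i • (Pi.single i 1 : Fin n → ℚ) := by
      ext k
      simp [Finset.sum_apply, Pi.single_apply]
    rw [h4]
    exact Submodule.sum_mem _ fun i _ => Submodule.smul_mem _ _ (h1 _ (LLQ_single r i))
  let B0 := Module.Basis.mk hli hspan
  have hcard : Module.finrank ℤ (LLQ_L r) = n := by
    have h1 := Module.finrank_eq_card_basis B0
    rw [Module.finrank_fin_fun, Fintype.card_fin] at h1
    exact h1.symm
  let b := b0.reindex (finCongr hcard)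
  let B := B0.reindex (finCongr hcard)
  have hBb : ∀ i, B i = (b i : Fin n → ℚ) := by
    intro i
    simp [B, b, B0]
  let x : Matrix (Fin n) (Fin n) ℚ := (Pi.basisFun ℚ (Fin n)).toMatrix B
  let y : Matrix (Fin n) (Fin n) ℚ := B.toMatrix (Pi.basisFun ℚ (Fin n))
  have hxy : x * y = 1 := Module.Basis.toMatrix_mul_toMatrix_flip _ _
  have hyx : y * x = 1 := Module.Basis.toMatrix_mul_toMatrix_flip _ _
  refine ⟨x, y, (LinearMap.toMatrixAlgEquiv b : Module.End ℤ (LLQ_L r) →* _).comp (LLQ_rho r), hxy,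
    hyx, ?_⟩
  intro l
  have hx : ∀ i j, x i j = (b j : Fin n → ℚ) i := by
    intro i j
    show (Pi.basisFun ℚ (Fin n)).toMatrix B i j = _
    rw [Module.Basis.toMatrix_apply, hBb]
    simp
  have key : r l * x = x * ((LinearMap.toMatrixAlgEquiv b (LLQ_rho r l)).map
      (Int.castRingHom ℚ)) := by
    ext i j
    have h1 := b.sum_repr (LLQ_rho r l (b j))
    have h2 := congrFun (congrArg Subtype.val h1) i
    rw [Matrix.mul_apply, Matrix.mul_apply]
    have h3 : (LLQ_rho r l (b j)).val i = ∑ k, r l i k * x k j := by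
      show (r l *ᵥ (b j).val) i = _
      rw [Matrix.mulVec, dotProduct]
      exact Finset.sum_congr rfl fun k _ => by rw [hx]
    rw [← h3, ← h2, Submodule.coe_sum, Finset.sum_apply]
    refine Finset.sum_congr rfl fun k _ => ?_
    rw [Submodule.coe_smul, Pi.smul_apply, Matrix.map_apply, LinearMap.toMatrixAlgEquiv_apply, hx,
      ← Int.cast_smul_eq_zsmul ℚ, smul_eq_mul, mul_comm]
    rfl
  show r l = x * ((LinearMap.toMatrixAlgEquiv b (LLQ_rho r l)).map (Int.castRingHom ℚ)) * y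
  rw [← key, mul_assoc, hxy, mul_one]

end Pool.Agent.PR
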