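import Pool.Agent.helper17.PR.SpecNU

/-!
# Project pr: N_SNG
-/

set_option autoImplicit false

namespace Pool.Agent.PR

open Module

theorem N_SNG (hRES : N_RES_stmt) (hFIT : N_FIT_stmt) (hSPL : N_SPL_stmt) : N_SNG_stmt := by
  intro K V _ _ _ _ _ Q _ hQ ρ hρ hn t ht hne g
  by_contra hcon
  push Not at hcon
  apply hne
  have key : ∀ a : K, (ρ g).maxGenEigenspace a ≤ LinearMap.eqLocus (ρ t) 1 := by
    intro a
    have hE := hFIT K V Q hQ ρ hρ g a
    set E := (ρ g).maxGenEigenspace a with hEd
    have hEne : E ≠ ⊤ := by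
      intro htop
      apply hcon a
      refine ⟨finrank K V, ?_⟩
      ext v
      have hv : v ∈ E := by rw [htop]; trivial
      rw [hEd, Module.End.maxGenEigenspace_eq_genEigenspace_finrank,
        Module.End.mem_genEigenspace_nat] at hv
      exact hv
    have hlt : finrank K E < finrank K V := Submodule.finrank_lt hEne
    have h1 := (hSPL K E Q hQ (resS ρ E hE) (hRES K V Q ρ E hE hρ).1).1 t (by
      refine Subgroup.lowerCentralSeries_antitone _ ?_ ht
      omega)
    intro w hw
    have h2 := congrArg (fun f : Module.End K E => (f ⟨w, hw⟩ : V)) h1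
    exact h2
  have htop := Module.End.iSup_maxGenEigenspace_eq_top (ρ g)
  have h3 : (⊤ : Submodule K V) ≤ LinearMap.eqLocus (ρ t) 1 := by
    rw [← htop]
    exact iSup_le key
  ext v
  exact h3 (Submodule.mem_top (x := v))

end Pool.Agent.PR
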